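import Pool.Agent.Helper93.KP.St
import Pool.Agent.Helper9.SU.M_ALL

/-!
# Project KP, module LOC: local sum of the weights over `j`
-/

set_option autoImplicit false

namespace Pool.Agent.Helper1.KP

open Finset Filter Topology Pool.Agent.Helper93.KP
open Pool.Agent.Helper15.AB (ee Kl StDB StMT)
open Pool.Agent.Helper9.TW (iv bx Rg cc Dec WF bm ms ind UpP LoP gm Ax GUp GLo Qs fm ej)
open Pool.Agent.Helper18.TR (fam0 fam1 StBonf StFLmain StLevel)

/-- the roots modulo `p` -/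
private def rt (n p : ℕ) : Finset ℕ := (range p).filter (fun r : ℕ => (p : ℤ) ∣ gk n (30 * r))

private theorem rt_card (n p : ℕ) : (rt n p).card = rn n p := rfl

private theorem rt_lt (n p s : ℕ) (h : s ∈ rt n p) : s < p := by
  unfold rt at h
  exact mem_range.mp (mem_filter.mp h).1

private theorem gk_mod (n p j : ℕ) : (p : ℤ) ∣ gk n (30 * (j % p)) ↔ (p : ℤ) ∣ gk n (30 * j) := by
  have h : (j : ℤ) = (j % p : ℕ) + (p : ℤ) * (j / p : ℕ) := by
    have := Nat.mod_add_div j p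
    exact_mod_cast this.symm
  have h2 : (p : ℤ) ∣ gk n (30 * j) - gk n (30 * (j % p)) := by
    unfold gk
    refine ⟨30 * (j / p : ℕ) * n - 900 * (j / p : ℕ) * (2 * (j % p : ℕ) + p * (j / p : ℕ)), ?_⟩
    have h3 : ((30 * j : ℕ) : ℤ) = 30 * ((j % p : ℕ) + (p : ℤ) * (j / p : ℕ)) := by
      rw [← h]; push_cast; ring
    rw [h3]
    push_cast
    ring
  constructor
  · intro h3
    have := dvd_add h2 h3
    simpa using this
  · intro h3
    have := dvd_sub h3 h2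
    simpa using this

private theorem mod_mem (n p j : ℕ) (hp : 0 < p) : j % p ∈ rt n p ↔ (p : ℤ) ∣ gk n (30 * j) := by
  unfold rt
  rw [mem_filter, mem_range, gk_mod]
  exact ⟨fun h => h.2, fun h => ⟨Nat.mod_lt _ hp, h⟩⟩

private theorem fm_sub (i a : ℕ) (θ : ℝ) (u : ℕ) (D : Finset ℕ) (h : D ∈ fm i a θ u) :
    D ∈ fam0 ⌊(a : ℝ) ^ θ⌋₊ u (Qs a θ) ∪ fam1 ⌊(a : ℝ) ^ θ⌋₊ u (Qs a θ) := by
  unfold fm at h
  split_ifs at h with h0
  · exact mem_union_left _ h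
  · exact h

private theorem fam_sub (w b : ℕ) (Q D : Finset ℕ) (h : D ∈ fam0 w b Q ∪ fam1 w b Q) : D ⊆ Q := by
  rcases mem_union.mp h with h | h
  · simp only [fam0, Finset.mem_filter, Finset.mem_powerset] at h
    exact h.1
  · simp only [fam1, Finset.mem_filter, Finset.mem_powerset] at h
    exact h.1

private theorem Qs_pr (a : ℕ) (θ : ℝ) (p : ℕ) (h : p ∈ Qs a θ) : p.Prime ∧ p ≤ ⌊(a : ℝ) ^ θ⌋₊ := by
  unfold Qs at h
  rw [mem_filter, mem_Icc] at h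
  exact ⟨h.2.1, h.1.2⟩

private theorem prod_inj (D D' : Finset ℕ) (h : ∀ p ∈ D, p.Prime) (h' : ∀ p ∈ D', p.Prime)
    (he : ∏ p ∈ D, p = ∏ p ∈ D', p) : D = D' := by
  have h1 : (∏ p ∈ D, p).primeFactors = D := Nat.primeFactors_prod h
  have h2 : (∏ p ∈ D', p).primeFactors = D' := Nat.primeFactors_prod h'
  rw [← h1, he, h2]

/-- one set of primes -/
private theorem one_set (n K : ℕ) (D : Finset ℕ) (hD : ∀ p ∈ D, p.Prime) :
    |∑ j ∈ Icc 1 K, ∏ p ∈ D, (if (p : ℤ) ∣ gk n (30 * j) then (1 : ℝ) else 0) -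
      K * ∏ p ∈ D, gn n p| ≤ ∏ p ∈ D, (p : ℝ) := by
  have h1 := Pool.Agent.Helper9.SU.cntT_ALL 0 K (rt n) D
    (fun l hl => ⟨hD l hl, fun s hs => rt_lt n l s hs⟩) 1 0 le_rfl (fun l _ => Nat.coprime_one_right l)
  have h2 : (((Ioc 0 (0 + K)).filter (fun e => e % 1 = 0 % 1 ∧ ∀ l ∈ D, e % l ∈ rt n l)).card : ℝ) =
      ∑ j ∈ Icc 1 K, ∏ p ∈ D, (if (p : ℤ) ∣ gk n (30 * j) then (1 : ℝ) else 0) := by
    rw [Finset.card_filter]
    push_cast
    have h3 : Ioc 0 (0 + K) = Icc 1 K := by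
      ext x
      simp only [mem_Ioc, mem_Icc]
      omega
    rw [h3]
    refine sum_congr rfl fun j _ => ?_
    rw [Finset.prod_ite_zero]
    simp only [Finset.prod_const_one]
    have h4 : (j % 1 = 0 % 1 ∧ ∀ l ∈ D, j % l ∈ rt n l) ↔ ∀ l ∈ D, (l : ℤ) ∣ gk n (30 * j) := by
      constructor
      · intro h l hl
        exact (mod_mem n l j (hD l hl).pos).mp (h.2 l hl)
      · intro h
        refine ⟨by simp [Nat.mod_one], fun l hl => (mod_mem n l j (hD l hl).pos).mpr (h l hl)⟩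
    by_cases h5 : ∀ l ∈ D, (l : ℤ) ∣ gk n (30 * j)
    · rw [if_pos (h4.mpr h5), if_pos h5]
    · rw [if_neg (fun h => h5 (h4.mp h)), if_neg h5]
  rw [h2] at h1
  have h3 : (K : ℝ) / (1 : ℕ) * ∏ l ∈ D, ((rt n l).card : ℝ) / l = K * ∏ p ∈ D, gn n p := by
    rw [Nat.cast_one, div_one]
    rfl
  rw [h3] at h1
  refine h1.trans ?_
  refine Finset.prod_le_prod (fun _ _ => Nat.cast_nonneg _) fun p _ => ?_
  have h4 : (rt n p).card ≤ p := by
    unfold rt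
    refine (card_filter_le _ _).trans ?_
    rw [card_range]
  exact_mod_cast h4

theorem hLOC (hLv : StLevel) : StLOC := by
  intro u
  obtain ⟨B₀, hB⟩ := hLv u
  refine ⟨B₀, fun i a n K θ ha hθ => ?_⟩
  set w : ℕ := ⌊(a : ℝ) ^ θ⌋₊ with hw
  have hw1 : 1 ≤ w := by
    rw [hw]
    refine Nat.le_floor ?_
    rw [Nat.cast_one]
    exact Real.one_le_rpow (by exact_mod_cast ha) hθ.le
  have hQ : ∀ p ∈ Qs a θ, p.Prime ∧ p ≤ w := fun p hp => Qs_pr a θ p hp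
  have hpr : ∀ D ∈ fm i a θ u, ∀ p ∈ D, p.Prime := fun D hD p hp =>
    (hQ p (fam_sub _ _ _ _ (fm_sub i a θ u D hD) hp)).1
  have hlev : ∀ D ∈ fm i a θ u, ∏ p ∈ D, p ≤ w ^ B₀ := fun D hD =>
    hB w hw1 (Qs a θ) hQ D (fm_sub i a θ u D hD)
  have hcard : (fm i a θ u).card ≤ w ^ B₀ := by
    have h1 : (fm i a θ u).card ≤ (Icc 1 (w ^ B₀)).card := by
      refine Finset.card_le_card_of_injOn (fun D => ∏ p ∈ D, p) ?_ ?_
      · intro D hD
        have hD' : D ∈ fm i a θ u := by simpa using hD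
        have h2 : 1 ≤ ∏ p ∈ D, p := Finset.one_le_prod' (fun p hp => (hpr D hD' p hp).one_lt.le)
        simpa using ⟨h2, hlev D hD'⟩
      · intro D hD D' hD' he
        have hD1 : D ∈ fm i a θ u := by simpa using hD
        have hD2 : D' ∈ fm i a θ u := by simpa using hD'
        exact prod_inj D D' (hpr D hD1) (hpr D' hD2) he
    rwa [Nat.card_Icc, Nat.add_sub_cancel] at h1
  have hmain : ∑ j ∈ Icc 1 K, tk i a θ u n (30 * j) - K * TK i a θ u n =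
      ∑ D ∈ fm i a θ u, (-1 : ℝ) ^ D.card *
        (∑ j ∈ Icc 1 K, ∏ p ∈ D, (if (p : ℤ) ∣ gk n (30 * j) then (1 : ℝ) else 0) -
          K * ∏ p ∈ D, gn n p) := by
    unfold tk TK
    rw [Finset.sum_comm, Finset.mul_sum, ← Finset.sum_sub_distrib]
    refine sum_congr rfl fun D _ => ?_
    rw [mul_sub, Finset.mul_sum]
    ring
  rw [hmain]
  refine (Finset.abs_sum_le_sum_abs _ _).trans ?_
  have h1 : ∀ D ∈ fm i a θ u, |(-1 : ℝ) ^ D.card *
        (∑ j ∈ Icc 1 K, ∏ p ∈ D, (if (p : ℤ) ∣ gk n (30 * j) then (1 : ℝ) else 0) -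
          K * ∏ p ∈ D, gn n p)| ≤ (w : ℝ) ^ B₀ := by
    intro D hD
    rw [abs_mul, abs_pow, abs_neg, abs_one, one_pow, one_mul]
    refine (one_set n K D (hpr D hD)).trans ?_
    have h2 : ∏ p ∈ D, (p : ℝ) = ((∏ p ∈ D, p : ℕ) : ℝ) := (Nat.cast_prod (fun p : ℕ => p) D).symm
    rw [h2, ← Nat.cast_pow, Nat.cast_le]
    exact hlev D hD
  refine (Finset.sum_le_card_nsmul _ _ _ h1).trans ?_
  rw [nsmul_eq_mul]
  have h2 : ((fm i a θ u).card : ℝ) ≤ (w : ℝ) ^ B₀ := by exact_mod_cast hcard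
  calc ((fm i a θ u).card : ℝ) * (w : ℝ) ^ B₀ ≤ (w : ℝ) ^ B₀ * (w : ℝ) ^ B₀ :=
        mul_le_mul_of_nonneg_right h2 (by positivity)
    _ = (w : ℝ) ^ (2 * B₀) := by rw [two_mul, pow_add]

end Pool.Agent.Helper1.KP
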